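import Pool.Agent.H58.SO.Basic

/-!
# A type whose vertices are identified by a canonical endomorphism
-/

set_option autoImplicit false
set_option linter.unusedVariables false

namespace Pool.Agent.H11.SO

open Pool.Agent.H68.BP Pool.Agent.H58.SF Pool.Agent.H53.GC Pool.Agent.H53.NR Pool.Agent.H58.SO
open Classical

/-- Three points: a copy of the pair `x, y` and a point on top of it with the type of `x` which is
free to both of them. -/
theorem three (hCFG : T_CFG) {V X Θ : Type} [LinearOrder V] {M : ℕ} (B : Bs V X Θ M) (x y : V) :
    ∃ x' y' x'' : V, B.ct x' y' = B.ct x y ∧ x' < x'' ∧ y' < x'' ∧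
      B.c x' x'' = B.fr (B.vt x) (B.vt x) ∧ B.c y' x'' = B.fr (B.vt y) (B.vt x) := by
  let W : Type := Option {v : V // v = x ∨ v = y}
  have hW : Finite {v : V // v = x ∨ v = y} := by
    have h1 : ({v : V | v = x ∨ v = y} : Set V).Finite := (Set.finite_singleton x).union
      (Set.finite_singleton y)
    exact h1.to_subtype
  have hW' : Finite W := inferInstanceAs (Finite (Option {v : V // v = x ∨ v = y}))
  let rk : W → WithTop V := fun w => match w with
    | none => ⊤
    | some v => (v.1 : WithTop V)
  let t : W → Θ := fun w => match w with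
    | none => B.vt x
    | some v => B.vt v.1
  let d : W → W → X := fun w w' => match w, w' with
    | none, none => B.fr (B.vt x) (B.vt x)
    | none, some v => B.fr (B.vt x) (B.vt v.1)
    | some v, none => B.fr (B.vt v.1) (B.vt x)
    | some v, some v' => B.c v.1 v'.1
  obtain ⟨f, hf1, hf2⟩ := hCFG V X Θ M B W (WithTop V) rk t d (by
      intro w w' h
      cases w with
      | none =>
        cases w' with
        | none => rfl
        | some v' => exact absurd h.symm (WithTop.coe_ne_top)
      | some v =>
        cases w' with
        | none => exact absurd h (WithTop.coe_ne_top)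
        | some v' => exact congrArg some (Subtype.ext (WithTop.coe_injective h)))
    (by
      intro w w'
      cases w with
      | none =>
        cases w' with
        | none => exact (B.frI _ _).symm
        | some v' => exact (B.frI _ _).symm
      | some v =>
        cases w' with
        | none => exact (B.frI _ _).symm
        | some v' => exact B.sym _ _)
    (by
      intro w
      cases w with
      | none => rfl
      | some v => exact B.diag _)
    (by
      intro w w'
      cases w with
      | none =>
        cases w' with
        | none => exact B.frL _ _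
        | some v' => exact B.frL _ _
      | some v =>
        cases w' with
        | none => exact B.frL _ _
        | some v' => exact B.left _ _)
    (by
      intro K _ hK
      by_cases h0 : (none : W) ∈ K
      · refine ⟨fun _ => x, ?_, ?_⟩
        · intro w hw w' hw' _
          by_contra hne
          cases w with
          | none =>
            cases w' with
            | none => exact hne rfl
            | some v' => exact hK none h0 (some v') hw' hne rfl
          | some v => exact hK (some v) hw none h0 (by simp) rfl
        · intro w hw w' hw'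
          cases w with
          | none =>
            cases w' with
            | none => exact B.diag x
            | some v' => exact absurd rfl (hK none h0 (some v') hw' (by simp))
          | some v => exact absurd rfl (hK (some v) hw none h0 (by simp))
      · refine ⟨fun w => match w with
          | none => x
          | some v => v.1, ?_, ?_⟩
        · intro w hw w' hw' h
          cases w with
          | none => exact absurd hw h0
          | some v =>
            cases w' with
            | none => exact absurd hw' h0
            | some v' => exact congrArg some (Subtype.ext h)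
        · intro w hw w' hw'
          cases w with
          | none => exact absurd hw h0
          | some v =>
            cases w' with
            | none => exact absurd hw' h0
            | some v' => rfl)
  have hx : x = x ∨ x = y := Or.inl rfl
  have hy : y = x ∨ y = y := Or.inr rfl
  refine ⟨f (some ⟨x, hx⟩), f (some ⟨y, hy⟩), f none, ?_, ?_, ?_, ?_, ?_⟩
  · rw [B.ct_eq_ct]
    have key : ∀ (a b : {v : V // v = x ∨ v = y}),
        f (some a) < f (some b) ↔ a.1 < b.1 := by
      intro a b
      constructor
      · intro h
        by_contra hn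
        rcases lt_or_eq_of_le (not_lt.1 hn) with h1 | h1
        · exact lt_asymm h (hf1 (some b) (some a) (WithTop.coe_lt_coe.2 h1))
        · have h2 : b = a := Subtype.ext h1
          rw [h2] at h
          exact lt_irrefl _ h
      · intro h
        exact hf1 (some a) (some b) (WithTop.coe_lt_coe.2 h)
    exact ⟨hf2 (some ⟨x, hx⟩) (some ⟨y, hy⟩), key ⟨x, hx⟩ ⟨y, hy⟩, key ⟨y, hy⟩ ⟨x, hx⟩⟩
  · exact hf1 (some ⟨x, hx⟩) none (WithTop.coe_lt_top x)
  · exact hf1 (some ⟨y, hy⟩) none (WithTop.coe_lt_top y)
  · exact hf2 (some ⟨x, hx⟩) none
  · exact hf2 (some ⟨y, hy⟩) none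

theorem pf_COL (hCFG : T_CFG) (hUMB : T_UMB) : Pool.Agent.H58.SO.T_COL := by
  intro σ V X Θ _ M B 𝔸 m hm s hs x y hx
  subst hx
  obtain ⟨x', y', x'', h1, h2, h3, h4, h5⟩ := three hCFG B x y
  have hM : 4 ≤ M := B.four
  have e1 : B.ct x' x'' = (B.fr (B.vt x) (B.vt x), Ordering.lt) :=
    Prod.ext h4 ((B.ct_snd_lt _ _).2 h2)
  have e2 : B.ct y' x'' = (B.fr (B.vt y) (B.vt x), Ordering.lt) :=
    Prod.ext h5 ((B.ct_snd_lt _ _).2 h3)
  have e3 : B.ct x'' y' = (B.fr (B.vt x) (B.vt y), Ordering.gt) := by
    refine Prod.ext ?_ ((B.ct_snd_gt _ _).2 h3)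
    show B.c x'' y' = _
    rw [B.sym y' x'', h5, B.frI]
  obtain ⟨z, _, hz⟩ := hm none (fun a : Fin M => if a.1 = 0 then x' else if a.1 = 1 then y' else x'')
    trivial
  have z01 := hz (⟨0, by omega⟩ : Fin M) (⟨1, by omega⟩ : Fin M)
  have z10 := hz (⟨1, by omega⟩ : Fin M) (⟨0, by omega⟩ : Fin M)
  have z02 := hz (⟨0, by omega⟩ : Fin M) (⟨2, by omega⟩ : Fin M)
  have z21 := hz (⟨2, by omega⟩ : Fin M) (⟨1, by omega⟩ : Fin M)
  have z12 := hz (⟨1, by omega⟩ : Fin M) (⟨2, by omega⟩ : Fin M)
  simp only [if_true, if_false, one_ne_zero, OfNat.ofNat_ne_zero, OfNat.ofNat_ne_one] at z01 z10 z02 z21 z12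
  have hzz : z (⟨0, by omega⟩ : Fin M) = z (⟨2, by omega⟩ : Fin M) := by
    rw [← B.ct_snd_eq, z02, e1, hs]
  refine ⟨?_, ?_⟩
  · rw [← h1, ← e3, ← z01, ← z21, hzz]
  · rw [← B.ct_symm h1, ← e2, ← z10, ← z12, hzz]

end Pool.Agent.H11.SO
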