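import Pool.Agent.H58.SO.Basic

/-!
# The canonical Olsak map
-/

set_option autoImplicit false

namespace Pool.Agent.H11.SO

open Pool.Agent.H68.BP Pool.Agent.H58.SF Pool.Agent.H53.GC Pool.Agent.H53.NR Pool.Agent.H58.SO
open Classical

theorem pat_mem' {X : Type} (j : Fin 3) (x y : X) (i : Fin 6) :
    pat j x y i = x ∨ pat j x y i = y := by
  simp only [pat]
  fin_cases j <;> fin_cases i <;> simp

/-- A map which is strictly monotone and preserves the colours on `K` preserves colours and orders
of the pairs of elements of `K`. -/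
theorem ct_copy {V X Θ : Type} [LinearOrder V] {M : ℕ} (B : Bs V X Θ M)
    {K : Finset V} {g : V → V} (h1 : ∀ x ∈ K, ∀ y ∈ K, x < y → g x < g y)
    (h2 : ∀ x ∈ K, ∀ y ∈ K, x ≤ y → B.c (g x) (g y) = B.c x y) {x y : V} (hx : x ∈ K)
    (hy : y ∈ K) : B.ct (g x) (g y) = B.ct x y := by
  rw [B.ct_eq_ct]
  have key : ∀ a ∈ K, ∀ b ∈ K, (g a < g b ↔ a < b) := by
    intro a ha b hb
    constructor
    · intro h
      by_contra hn
      rcases lt_or_eq_of_le (not_lt.1 hn) with h3 | h3
      · exact lt_asymm h (h1 b hb a ha h3)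
      · rw [h3] at h
        exact lt_irrefl _ h
    · exact h1 a ha b hb
  refine ⟨?_, key x hx y hy, key y hy x hx⟩
  rcases le_total x y with h | h
  · exact h2 x hx y hy h
  · rw [B.sym (g y) (g x), h2 y hy x hx h, ← B.sym]

theorem pf_HH0 (hPOW : T_POW) (hCNG : Pool.Agent.H44.EQ.T_CNG) : T_HH0 := by
  intro σ V X Θ _ M B 𝔸 hV hol hR hK hbl
  have hX : Finite X := B.finX
  have hne : Nonempty V := B.ne
  have hO : Finite Ordering := by
    refine Finite.of_injective (β := Bool × Bool)
      (fun o => (decide (o = Ordering.lt), decide (o = Ordering.eq))) ?_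
    intro a b h
    cases a <;> cases b <;> simp_all
  have hXO : Finite (X × Ordering) := inferInstance
  obtain ⟨h, hg⟩ := hPOW σ V (X × Ordering) 𝔸 M B.ct hV hne hXO hol hK
  obtain ⟨h', hti, hl⟩ := hCNG V X (Fin 6) (X × Ordering) B.c hR h
  refine ⟨h', hbl, ?_, ?_, ?_⟩
  · intro s v hv
    obtain ⟨g, g1, g2, g3⟩ := hl (Finset.univ.image
      fun p : Fin (arP σ M s) × Fin 6 => v p.1 p.2)
    have hmem : ∀ a i, v a i ∈ Finset.univ.image
        fun p : Fin (arP σ M s) × Fin 6 => v p.1 p.2 :=
      fun a i => Finset.mem_image.2 ⟨(a, i), Finset.mem_univ _, rfl⟩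
    obtain ⟨x, hx, _, hx'⟩ := hg.rel s (arP σ M s) id (fun a i => g (v a i)) (by
        intro l
        exact hbl.rel (hv l) (sameD_of_ct (fun a b => ct_copy B g1 g2 (hmem a l) (hmem b l))))
      (fun a b hab => by rw [show a = b from hab])
    refine ⟨x, hx, fun a b => ?_⟩
    rw [hx' a b, g3 (v a) (v b) (hmem a) (hmem b)]
  · intro v w v' w' hs
    refine hti v w v' w' ?_
    intro i j
    have h1 := (B.ct_eq_ct).1 (hs.ctEmpty i j)
    exact ⟨h1.2.1.symm, fun _ => h1.1.symm⟩
  · intro r x y x' y'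
    obtain ⟨g, _, _, hg'⟩ := hl {x, y, x', y'}
    have hmem1 : ∀ (r : Fin 3) (i : Fin 6), pat r x y i ∈ ({x, y, x', y'} : Finset V) := by
      intro r i
      rcases pat_mem' r x y i with e | e <;> rw [e] <;> simp
    have hmem2 : ∀ (r : Fin 3) (i : Fin 6), pat r x' y' i ∈ ({x, y, x', y'} : Finset V) := by
      intro r i
      rcases pat_mem' r x' y' i with e | e <;> rw [e] <;> simp
    have key : ∀ r : Fin 3, h' (pat r x y) (pat r x' y') =
        h (pat r (g x) (g y)) (pat r (g x') (g y')) := by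
      intro r
      rw [hg' (pat r x y) (pat r x' y') (hmem1 r) (hmem2 r)]
      congr 1
      · funext i
        exact pat_map g r x y i
      · funext i
        exact pat_map g r x' y' i
    rw [key r, key 0]
    exact hg.exact r (g x) (g y) (g x') (g y')

end Pool.Agent.H11.SO
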